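import Mathlib

/-!
# Graphs with a commutative group of automorphisms: orbits are Cayley graphs
-/

set_option autoImplicit false

namespace Pool.Agent.Q276.GS

open SimpleGraph

/-- The graph induced on an orbit of a commutative group is a Cayley graph. -/
theorem orbit_cayley {V Γ : Type} [CommGroup Γ] [MulAction Γ V] (X : SimpleGraph V)
    (haut : ∀ (g : Γ) (a b : V), X.Adj a b → X.Adj (g • a) (g • b)) (v : V) :
    ∃ (S : Set (Additive (Γ ⧸ MulAction.stabilizer Γ v))) (φ : addCayley S ↪g X),
      ∀ x, x ∈ MulAction.orbit Γ v ↔ ∃ q, φ q = x := by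
  classical
  have hiff : ∀ (g : Γ) (a b : V), X.Adj (g • a) (g • b) ↔ X.Adj a b := by
    intro g a b
    refine ⟨fun h => ?_, haut g a b⟩
    have := haut g⁻¹ _ _ h
    simpa using this
  let ψ : Additive (Γ ⧸ MulAction.stabilizer Γ v) → V := fun q =>
    MulAction.ofQuotientStabilizer Γ v q.toMul
  have hψ : ∀ a : Γ, ψ (Additive.ofMul (QuotientGroup.mk a)) = a • v := fun a => rfl
  have hmul : ∀ (a : Γ) (q : Additive (Γ ⧸ MulAction.stabilizer Γ v)),
      ψ (Additive.ofMul (QuotientGroup.mk a) + q) = a • ψ q := by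
    intro a q
    obtain ⟨b, hb⟩ := QuotientGroup.mk_surjective q.toMul
    have hq : q = Additive.ofMul (QuotientGroup.mk b) := by rw [hb]; rfl
    rw [hq, ← ofMul_mul, ← QuotientGroup.mk_mul, hψ, hψ, mul_smul]
  have hinj : Function.Injective ψ := by
    intro p q h
    exact Additive.toMul.injective (MulAction.injective_ofQuotientStabilizer Γ v h)
  let S : Set (Additive (Γ ⧸ MulAction.stabilizer Γ v)) := {q | X.Adj v (ψ q)}
  have hadj : ∀ p q, X.Adj (ψ p) (ψ q) ↔ (addCayley S).Adj p q := by
    intro p q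
    obtain ⟨a, ha⟩ := QuotientGroup.mk_surjective p.toMul
    obtain ⟨b, hb⟩ := QuotientGroup.mk_surjective q.toMul
    have hp : p = Additive.ofMul (QuotientGroup.mk a) := by rw [ha]; rfl
    have hq : q = Additive.ofMul (QuotientGroup.mk b) := by rw [hb]; rfl
    have key : ∀ (p q : Additive (Γ ⧸ MulAction.stabilizer Γ v)) (a : Γ),
        p = Additive.ofMul (QuotientGroup.mk a) → ∀ g, p + g = q →
        (X.Adj (ψ p) (ψ q) ↔ g ∈ S) := by
      intro p q a hp g hg
      rw [← hg]
      show X.Adj (ψ p) (ψ (p + g)) ↔ X.Adj v (ψ g)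
      rw [hp, hmul, hψ, hiff]
    rw [addCayley_adj']
    constructor
    · intro h
      refine ⟨fun e => X.ne_of_adj h (congrArg ψ e), q - p, ?_, Or.inl (add_sub_cancel p q)⟩
      exact (key p q a hp (q - p) (add_sub_cancel p q)).1 h
    · rintro ⟨-, g, hg, h | h⟩
      · exact (key p q a hp g h).2 hg
      · exact ((key q p b hq g h.symm).2 hg).symm
  refine ⟨S, ⟨⟨ψ, hinj⟩, fun {p q} => hadj p q⟩, fun x => ?_⟩
  constructor
  · rintro ⟨g, rfl⟩
    exact ⟨Additive.ofMul (QuotientGroup.mk g), rfl⟩
  · rintro ⟨q, rfl⟩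
    obtain ⟨b, hb⟩ := QuotientGroup.mk_surjective q.toMul
    have hq : q = Additive.ofMul (QuotientGroup.mk b) := by rw [hb]; rfl
    refine ⟨b, ?_⟩
    show b • v = ψ q
    rw [hq]
    exact (hψ b).symm

/-- colour the orbits one after the other -/
theorem colorable_of_orbits {V Γ : Type} [Finite V] [Group Γ] [MulAction Γ V] (X : SimpleGraph V)
    (C : ℕ) (hC : ∀ v : V, ∃ f : V → Fin C, ∀ x y, x ∈ MulAction.orbit Γ v →
      y ∈ MulAction.orbit Γ v → X.Adj x y → f x ≠ f y) :
    X.Colorable (C * Nat.card (MulAction.orbitRel.Quotient Γ V)) := by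
  classical
  have := Fintype.ofFinite (MulAction.orbitRel.Quotient Γ V)
  choose f hf using hC
  let q : V → MulAction.orbitRel.Quotient Γ V := fun x => Quotient.mk'' x
  have hq : ∀ x, x ∈ MulAction.orbit Γ (q x).out := by
    intro x
    have h1 : (Quotient.mk'' (q x).out : MulAction.orbitRel.Quotient Γ V) = Quotient.mk'' x :=
      Quotient.out_eq' _
    have h2 := Quotient.eq''.1 h1
    rw [MulAction.orbitRel_apply] at h2
    exact MulAction.mem_orbit_symm.1 h2
  let c : X.Coloring (Fin C × MulAction.orbitRel.Quotient Γ V) :=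
    Coloring.mk (fun x => (f (q x).out x, q x)) (by
      intro x y h he
      have h1 := congrArg Prod.snd he
      have h2 := congrArg Prod.fst he
      simp only at h1 h2
      have hy := hq y
      rw [← h1] at hy h2
      exact hf (q x).out x y (hq x) hy h h2)
  have h3 := c.colorable
  rwa [Fintype.card_prod, Fintype.card_fin, ← Nat.card_eq_fintype_card] at h3

/-- a commutative group: it is enough to colour Cayley graphs -/
theorem colorable_comm {V Γ : Type} [Finite V] [CommGroup Γ] [Finite Γ] [MulAction Γ V]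
    (X : SimpleGraph V) (haut : ∀ (g : Γ) (a b : V), X.Adj a b → X.Adj (g • a) (g • b))
    (C : ℕ) (hC : ∀ (H : Subgroup Γ) (S : Set (Additive (Γ ⧸ H))), Nonempty (addCayley S ↪g X) →
      (addCayley S).Colorable C) :
    X.Colorable (C * Nat.card (MulAction.orbitRel.Quotient Γ V)) := by
  classical
  refine colorable_of_orbits X C fun v => ?_
  obtain ⟨S, φ, hφ⟩ := orbit_cayley X haut v
  obtain ⟨c⟩ := hC _ S ⟨φ⟩
  refine ⟨fun x => if h : ∃ q, φ q = x then c h.choose else c 0, fun x y hx hy hxy => ?_⟩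
  have h1 := (hφ x).1 hx
  have h2 := (hφ y).1 hy
  simp only [dif_pos h1, dif_pos h2]
  refine c.valid ?_
  rw [← φ.map_adj_iff, h1.choose_spec, h2.choose_spec]
  exact hxy

/-- free actions: number of points -/
theorem card_free (C V : Type) [Group C] [Finite C] [Finite V] [MulAction C V]
    (hfree : ∀ (g : C) (v : V), g • v = v → g = 1) :
    Nat.card V = Nat.card C * Nat.card (MulAction.orbitRel.Quotient C V) := by
  classical
  have := Fintype.ofFinite C
  have := Fintype.ofFinite V
  have := Fintype.ofFinite (MulAction.orbitRel.Quotient C V)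
  rw [Nat.card_eq_fintype_card, Nat.card_eq_fintype_card, Nat.card_eq_fintype_card,
    MulAction.card_eq_sum_card_group_div_card_stabilizer C V]
  have h : ∀ ω : MulAction.orbitRel.Quotient C V,
      Fintype.card C / Fintype.card (MulAction.stabilizer C (Quotient.out ω)) =
        Fintype.card C := by
    intro ω
    have h1 : MulAction.stabilizer C (Quotient.out ω) = ⊥ := by
      rw [eq_bot_iff]
      intro g hg
      rw [Subgroup.mem_bot]
      exact hfree g _ (MulAction.mem_stabilizer_iff.1 hg)
    have h2 : Fintype.card (MulAction.stabilizer C (Quotient.out ω)) = 1 := by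
      rw [← Nat.card_eq_fintype_card, h1]
      exact Subgroup.card_bot
    rw [h2, Nat.div_one]
  rw [Finset.sum_congr rfl (fun ω _ => h ω), Finset.sum_const, Finset.card_univ, smul_eq_mul,
    mul_comm]

/-- the orbits of a subgroup -/
theorem card_orbits_le {V G : Type} [Finite V] [Group G] [Finite G] [MulAction G V]
    (A : Subgroup G) :
    Nat.card (MulAction.orbitRel.Quotient A V) ≤
      A.index * Nat.card (MulAction.orbitRel.Quotient G V) := by
  classical
  have : Finite (MulAction.orbitRel.Quotient G V) := Quotient.finite _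
  have h1 : A.index * Nat.card (MulAction.orbitRel.Quotient G V) =
      Nat.card ((G ⧸ A) × MulAction.orbitRel.Quotient G V) := by
    rw [Nat.card_prod]; rfl
  rw [h1]
  let F : (G ⧸ A) × MulAction.orbitRel.Quotient G V → MulAction.orbitRel.Quotient A V :=
    fun p => Quotient.mk'' ((Quotient.out p.1)⁻¹ • p.2.out)
  refine Nat.card_le_card_of_surjective F ?_
  intro ω
  obtain ⟨x, rfl⟩ := Quotient.mk''_surjective ω
  let q : MulAction.orbitRel.Quotient G V := Quotient.mk'' x
  have h2 : (Quotient.mk'' q.out : MulAction.orbitRel.Quotient G V) = Quotient.mk'' x :=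
    Quotient.out_eq' _
  have h3 := Quotient.eq''.1 h2
  rw [MulAction.orbitRel_apply] at h3
  obtain ⟨g, hg⟩ := h3
  -- `g • x = q.out`, `x = g⁻¹ • q.out`
  have hg' : g • x = q.out := hg
  refine ⟨(QuotientGroup.mk g, q), ?_⟩
  show Quotient.mk'' ((Quotient.out (QuotientGroup.mk g : G ⧸ A))⁻¹ • q.out) = Quotient.mk'' x
  apply Quotient.sound'
  show (MulAction.orbitRel A V) _ _
  rw [MulAction.orbitRel_apply]
  have h4 : (QuotientGroup.mk (Quotient.out (QuotientGroup.mk g : G ⧸ A)) : G ⧸ A) =
      QuotientGroup.mk g := Quotient.out_eq _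
  have h5 := QuotientGroup.eq.1 h4
  refine ⟨⟨(Quotient.out (QuotientGroup.mk g : G ⧸ A))⁻¹ * g, h5⟩, ?_⟩
  show ((Quotient.out (QuotientGroup.mk g : G ⧸ A))⁻¹ * g) • x = _
  rw [mul_smul, hg']

end Pool.Agent.Q276.GS
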